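import Pool.Agent.Q317.ST.DegSer
import Pool.Agent.Q317.ST.Pad

/-!
# The analytic Nagao conjecture, totally complex fields and real places

`Ω` is an algebraic closure of `ℚ`, number fields are the finite extensions of `ℚ` in `Ω`. The
primes of degree one of a number field `k` are given as ring homomorphisms `φ : 𝓞 k → 𝔽_p` (`p` a
prime); `a p φ` is an arbitrary real function of them, for instance `-𝔄*_𝔭 log q_𝔭` for a fibration
over `k`.
-/

set_option autoImplicit false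

namespace Pool.Agent.Results.MP_3d3918_nt.ContinuationAndRealPlaces

open scoped Classical
open IntermediateField NumberField Pool.Agent.Q317.ST Pool.Agent.Q317.ST.Perm

attribute [-instance] DivisionRing.toRatAlgebra

variable {Ω : Type} [Field Ω] [Algebra ℚ Ω]

/-- `F` is a number field containing `k` that has no embedding in `ℝ` and, for the primes `p ≤ n`,
no embedding in `ℚ_p`. -/
def NoSmallPlaces (k : IntermediateField ℚ Ω) (n : ℕ) (F : IntermediateField ℚ Ω) : Prop :=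
  FiniteDimensional ℚ F ∧ k ≤ F ∧ IsEmpty (F →+* ℝ) ∧
    ∀ (p : ℕ) [Fact p.Prime], p ≤ n → IsEmpty (F →+* ℚ_[p])

/-- On `U`, the functions `f` and `f'`, given on `1 < Re s`, differ by a holomorphic function. -/
def EqualOn (U : Set ℂ) (f f' : ℂ → ℂ) : Prop :=
  ∃ g : ℂ → ℂ, DifferentiableOn ℂ g U ∧ ∀ s ∈ U, 1 < s.re → f s = f' s + g s

theorem equalOn_iff {U : Set ℂ} {f f' : ℂ → ℂ} :
    EqualOn U f f' ↔ (extSub U).mkQ (f - f') = 0 := by
  rw [Submodule.mkQ_apply, Submodule.Quotient.mk_eq_zero]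
  constructor
  · rintro ⟨g, hg, h⟩
    exact ⟨g, hg, fun s hs h1 => by rw [Pi.sub_apply, h s hs h1]; ring⟩
  · rintro ⟨g, hg, h⟩
    exact ⟨g, hg, fun s hs h1 => by rw [← h s hs h1, Pi.sub_apply]; ring⟩

/-- the series of `K` minus the expected polar part -/
noncomputable def rest (k : IntermediateField ℚ Ω) (a : ∀ p : ℕ, (𝓞 k →+* ZMod p) → ℝ)
    (c : IntermediateField ℚ Ω → ℝ) (K : IntermediateField ℚ Ω) (s : ℂ) : ℂ :=
  primeSeries k K a s - c K / (s - 1)

/-- Over `K`, the series minus `c(K) / (s - 1)` extends holomorphically to `U`. -/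
def Law (U : Set ℂ) (k K : IntermediateField ℚ Ω) (a : ∀ p : ℕ, (𝓞 k →+* ZMod p) → ℝ)
    (c : IntermediateField ℚ Ω → ℝ) : Prop :=
  ∃ g : ℂ → ℂ, DifferentiableOn ℂ g U ∧ ∀ s ∈ U, 1 < s.re →
    primeSeries k K a s - c K / (s - 1) = g s

theorem law_iff {U : Set ℂ} {k K : IntermediateField ℚ Ω}
    {a : ∀ p : ℕ, (𝓞 k →+* ZMod p) → ℝ} {c : IntermediateField ℚ Ω → ℝ} :
    (extSub U).mkQ (rest k a c K) = 0 ↔ Law U k K a c := by
  rw [Submodule.mkQ_apply, Submodule.Quotient.mk_eq_zero]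
  rfl

theorem realOver_unique {k K : IntermediateField ℚ Ω} (hkK : k ≤ K) {v : k →+* ℝ}
    (hv : ∀ w : k →+* ℝ, w = v) : realOver k K v = Nat.card (K →+* ℝ) := by
  unfold realOver
  refine Nat.card_congr (Equiv.subtypeUnivEquiv fun ρ x hx => ?_)
  exact congrArg (fun t : k →+* ℝ => t ⟨x, hx⟩) (hv (ρ.comp (inclusion hkK).toRingHom))

theorem realOver_empty {k K : IntermediateField ℚ Ω} (h : IsEmpty (K →+* ℝ)) (v : k →+* ℝ) :
    realOver k K v = 0 := by
  unfold realOver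
  have : IsEmpty {ρ : K →+* ℝ // ∀ (x : K) (hx : (x : Ω) ∈ k), ρ x = v ⟨x, hx⟩} :=
    ⟨fun ρ => h.false ρ.1⟩
  exact Nat.card_of_isEmpty

theorem respects_rest [IsAlgClosure ℚ Ω] {k : IntermediateField ℚ Ω} [FiniteDimensional ℚ k]
    {a : ∀ p : ℕ, (𝓞 k →+* ZMod p) → ℝ}
    (ha : ∀ K : IntermediateField ℚ Ω, FiniteDimensional ℚ K → k ≤ K → ∀ s : ℂ, 1 < s.re →
      Summable fun p : Nat.Primes => (localSum k K a p : ℂ) * ((p : ℕ) : ℂ) ^ (-s))
    {c : IntermediateField ℚ Ω → ℝ} (hc : Respects k c) (U : Set ℂ) :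
    Respects k fun K => (extSub U).mkQ (rest k a c K) := by
  intro ι _ n K hK h
  obtain ⟨g, hg, hgs⟩ := series_relation a ha ι n K hK h
  have h1 := hc ι n K hK h
  have h2 : ∑ i, n i • (extSub U).mkQ (rest k a c (K i)) =
      (extSub U).mkQ (∑ i, n i • rest k a c (K i)) := by
    rw [map_sum]
    exact Finset.sum_congr rfl fun i _ => by rw [map_zsmul]
  rw [h2, Submodule.mkQ_apply, Submodule.Quotient.mk_eq_zero]
  refine ⟨g, hg.differentiableOn, fun s _ hs => ?_⟩
  rw [← hgs s hs, Finset.sum_apply]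
  have h3 : ∀ i, (n i • rest k a c (K i)) s =
      (n i : ℂ) * primeSeries k (K i) a s - ((n i • c (K i) : ℝ) : ℂ) / (s - 1) := fun i => by
    rw [Pi.smul_apply, zsmul_eq_mul, zsmul_eq_mul]
    unfold rest
    push_cast
    ring
  rw [Finset.sum_congr rfl fun i _ => h3 i, Finset.sum_sub_distrib, ← Finset.sum_div]
  have h4 : ∑ i, ((n i • c (K i) : ℝ) : ℂ) = 0 := by
    rw [← Complex.ofReal_sum, h1, Complex.ofReal_zero]
  rw [h4, zero_div, sub_zero]

theorem result (Ω : Type) [Field Ω] [Algebra ℚ Ω] [IsAlgClosure ℚ Ω] (k : IntermediateField ℚ Ω)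
    [FiniteDimensional ℚ k] (a : ∀ p : ℕ, (𝓞 k →+* ZMod p) → ℝ)
    (ha : ∀ K : IntermediateField ℚ Ω, FiniteDimensional ℚ K → k ≤ K → ∀ s : ℂ, 1 < s.re →
      Summable fun p : Nat.Primes => (localSum k K a p : ℂ) * ((p : ℕ) : ℂ) ^ (-s))
    (c : IntermediateField ℚ Ω → ℝ) (hc : Respects k c) (U : Set ℂ) (n : ℕ)
    (h : ∀ F, NoSmallPlaces k n F → Law U k F a c) :
    (∃ lam : (k →+* ℝ) → ℂ → ℂ, ∀ K : IntermediateField ℚ Ω, FiniteDimensional ℚ K → k ≤ K →
      EqualOn U (rest k a c K) fun s => ∑ᶠ v, (realOver k K v : ℂ) * lam v s) ∧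
    (∀ K : IntermediateField ℚ Ω, FiniteDimensional ℚ K → k ≤ K → IsEmpty (K →+* ℝ) →
      Law U k K a c) ∧
    (Nat.card (k →+* ℝ) = 1 → ∀ K : IntermediateField ℚ Ω, FiniteDimensional ℚ K → k ≤ K →
      EqualOn U (rest k a c K) fun s => Nat.card (K →+* ℝ) * rest k a c k s) ∧
    (Nat.card (k →+* ℝ) = 1 → ∀ K₀ : IntermediateField ℚ Ω, FiniteDimensional ℚ K₀ → k ≤ K₀ →
      Nonempty (K₀ →+* ℝ) → Law U k K₀ a c →
      ∀ K : IntermediateField ℚ Ω, FiniteDimensional ℚ K → k ≤ K → Law U k K a c) := by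
  let J := {p : Fin (n + 1) // (p : ℕ).Prime}
  have i0 : ∀ j : J, Fact ((j.1 : ℕ).Prime) := fun j => ⟨j.2⟩
  let E : J → Type := fun j => ℚ_[(j.1 : ℕ)]
  have hE : ∀ j : J, CharZero (E j) := fun j => inferInstance
  have hnE : ∀ j : J, StarkNumbers.NonSq (E j) := fun j => exists_nonsq _
  have := finite_real k
  have := Fintype.ofFinite (k →+* ℝ)
  obtain ⟨lam, hlam⟩ := exists_vec (respects_rest ha hc U) E hE hnE (by
    intro F hF hkF hR hj
    refine law_iff.2 (h F ⟨hF, hkF, hR, ?_⟩)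
    intro p hp hpn
    exact hj ⟨⟨p, by omega⟩, hp.out⟩)
  have hone : Nat.card (k →+* ℝ) = 1 → ∀ K : IntermediateField ℚ Ω, FiniteDimensional ℚ K →
      k ≤ K → (extSub U).mkQ (rest k a c K) =
        (Nat.card (K →+* ℝ) : ℚ) • (extSub U).mkQ (rest k a c k) := by
    intro hcard K hK hk
    obtain ⟨hsub, ⟨v⟩⟩ := Nat.card_eq_one_iff_unique.1 hcard
    have hv : ∀ w : k →+* ℝ, w = v := fun w => Subsingleton.elim w v
    have h1 := hlam K hK hk
    have h2 := hlam k inferInstance le_rfl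
    rw [finsum_eq_single _ v fun w hw => absurd (hv w) hw] at h1 h2
    rw [realOver_unique hk hv] at h1
    rw [realOver_unique le_rfl hv, hcard, Nat.cast_one, one_smul] at h2
    rw [h1, h2]
  refine ⟨?_, ?_, ?_, ?_⟩
  · choose L hL using fun v => (extSub U).mkQ_surjective (lam v)
    refine ⟨L, fun K hK hk => ?_⟩
    have h1 := hlam K hK hk
    rw [finsum_eq_sum_of_fintype] at h1
    rw [equalOn_iff]
    have h3 : (rest k a c K - fun s => ∑ᶠ v, (realOver k K v : ℂ) * L v s) =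
        rest k a c K - ∑ v, (realOver k K v : ℚ) • L v := by
      congr 1
      funext s
      rw [Finset.sum_apply, finsum_eq_sum_of_fintype]
      refine Finset.sum_congr rfl fun v _ => ?_
      rw [Pi.smul_apply, Rat.smul_def, Rat.cast_natCast]
    rw [h3, map_sub, map_sum]
    simp only [map_smul, hL]
    rw [← h1]
    exact sub_self _
  · intro K hK hk hR
    rw [← law_iff, hlam K hK hk]
    simp only [realOver_empty hR, Nat.cast_zero, zero_smul, finsum_zero]
  · intro hcard K hK hk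
    rw [equalOn_iff]
    have h4 : (fun s => (Nat.card (K →+* ℝ) : ℂ) * rest k a c k s) =
        (Nat.card (K →+* ℝ) : ℚ) • rest k a c k := by
      funext s
      rw [Pi.smul_apply, Rat.smul_def, Rat.cast_natCast]
    rw [h4, map_sub, map_smul, hone hcard K hK hk]
    exact sub_self _
  · intro hcard K₀ hK₀ hk₀ hne h₀ K hK hk
    have h1 := hone hcard K₀ hK₀ hk₀
    rw [law_iff.2 h₀] at h1
    have := finite_real K₀
    have h2 := (smul_eq_zero.1 h1.symm).resolve_left (Nat.cast_ne_zero.2 Nat.card_pos.ne')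
    rw [← law_iff, hone hcard K hK hk, h2, smul_zero]

end Pool.Agent.Results.MP_3d3918_nt.ContinuationAndRealPlaces
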