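import Pool.Agent.Q235.FD.Twist

/-!
# The analytic Nagao conjecture in the half plane `Re z > 1 / 2` for almost all twist fibrations whose coefficients arise from
arbitrary integers by changing a few digits

Let `f₁, ..., f_s` be monic polynomials of degrees `2 g_i + 1 ≥ 3` whose coefficients arise from arbitrary integers by changing a few
digits at random positions, and for all `i, j` let `X_ij` be the fibration `f_j(t) y ^ 2 = f_i(x)` over the `t`-line: its generic fibre
is the quadratic twist of the curve `C_i : y ^ 2 = f_i(x)` by the polynomial `f_j`. The group of the sections of the Jacobian is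
`Hom (J(C_j), J(C_i))` up to finite index, so the rank is one for `i = j` (the section `(x, y) = (t, 1)`) and zero for `i ≠ j`, if the
coefficients are generic. The analytic Nagao conjecture says that `∑ (A_p + rank) log p p ^ (-z)` has no pole at `z = 1`. We show for
almost all choices of the positions that the sum of `w_p (A_p(X_ij) + rank) log p p ^ (-z)` over the good primes `p` with `y < p ≤ x`
is at most `(1 + |z|) y ^ (-δ / 4)`, for all complex `z` with `Re z ≥ 1 / 2 + δ`, all `i` and `j`, all `w` in an arbitrary family of
`y ^ B` weight functions with values in `[-1, 1]` (`w = 1`, real characters, ...) and all `x` from `y` to `exp (c r)`, where `r` is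
the number of the digits changed: the pole at `z = 1` has the order and the residue predicted, and up to the line `Re z = 1 / 2` there
is no other singularity, as far as this can be seen from the primes between `y` and `x`.

The proof uses the law for functions of the residues of such tuples (library `TH894.NE`), Weil's bound (library `H341R2`), the
averages over the polynomials modulo `p`, and partial summation.
-/

set_option autoImplicit false

namespace Pool.Agent.Results.MP_3d3918_nt.FewDigitTwistPencils

open Finset Pool.Agent.Q235.FD

open Classical in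
/-- The sum over the primes `p` with `y < p ≤ x`, good for all the curves, of `w_p (A_p(X_ij) + [i = j]) log p p ^ (-z)`; `A_p(X_ij)`
is the average of the traces of Frobenius of the fibres of `f_j(t) y ^ 2 = f_i(x)`. -/
noncomputable def series {s : ℕ} {g : Fin s → ℕ} (y x : ℕ) (m : (Σ i, Fin (2 * g i + 1)) → ℕ) (i j : Fin s) (w : ℕ → ℝ) (z : ℂ) : ℂ :=
  primeSum y x (fun p => if AllGood p m then
    (w p * (twistAverage p (fun l => m ⟨i, l⟩) (fun l => m ⟨j, l⟩) + if i = j then 1 else 0) * Real.log p : ℝ) * (p : ℂ) ^ (-z) else 0)

/-- For all systems of `s ≥ 1` genera `g_i ≥ 1`, bases `b ≥ 2`, `δ > 0`, `A` and `B`, for almost all systems `m` of coefficient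
vectors obtained by changing a few digits of arbitrary integers (`ForAlmostAllFrom`), uniformly in the family `θ` of at most `y ^ B`
weight functions: `|series y x m i j w z| ≤ (1 + |z|) y ^ (-δ / 4)` for all `i`, `j` and all `z` with `Re z ≥ 1 / 2 + δ`. -/
theorem result (s : ℕ) (hs : 1 ≤ s) (g : Fin s → ℕ) (hg : ∀ i, 1 ≤ g i) (b : ℕ) (hb : 2 ≤ b) (δ : ℝ) (hδ : 0 < δ) (A B : ℕ) :
    ForAlmostAllFrom (Σ i, Fin (2 * g i + 1)) b A (fun (θ : Weights B) y x m => ∀ w ∈ θ.W y, ∀ i j : Fin s, ∀ z : ℂ,
      1 / 2 + δ ≤ z.re → ‖series y x m i j w z‖ ≤ (1 + ‖z‖) * (y : ℝ) ^ (-(δ / 4))) := by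
  classical
  obtain ⟨c, hc, y₀, H⟩ := pair_series (D := fun i => 2 * g i + 1) hs (fun i => ⟨g i, rfl⟩) (fun i => by have := hg i; omega) hb hδ A B
  refine ⟨c, hc, y₀, fun θ K r N f y hset hy => le_trans (Nat.cast_le.2 (exceptions_mono ?_)) (H θ K r N f y hset hy)⟩
  intro m hm x hx hr w hw i j z hz
  have h1 := (hm x hx hr w hw z hz).2 i j
  have e : series y x m i j w z = -primeSum y x (fun p => ((w p * Real.log p * (if AllGood p m then
          ntrace p (fun l => m ⟨i, l⟩) * ntrace p (fun l => m ⟨j, l⟩) - (if i = j then 1 else 0) else 0) : ℝ) : ℂ) * (p : ℂ) ^ (-z)) := by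
    unfold series primeSum
    rw [← sum_neg_distrib]
    refine sum_congr rfl fun p hp => ?_
    beta_reduce
    by_cases hgood : AllGood p m
    · rw [if_pos hgood, if_pos hgood]
      have : Fact p.Prime := ⟨(mem_filter.1 hp).2⟩
      rw [twistAverage_eq (hgood i).1, ← neg_mul]
      congr 1
      push_cast
      ring
    · rw [if_neg hgood, if_neg hgood]
      simp
  rw [e, norm_neg]
  exact h1

end Pool.Agent.Results.MP_3d3918_nt.FewDigitTwistPencils
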