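import Pool.Agent.Q56.WL.Pairs
import Pool.Agent.Q235.FD.Twist

/-!
# The analytic Nagao conjecture in the half plane `Re z > 1 / 2` for ALL twist fibrations whose coefficients lie in windows near
powers with non-integral exponents

Let `f₁, ..., f_s` be monic polynomials of degrees `2 g_i + 1 ≥ 3` whose coefficients are
arbitrary integers in the windows of length `y ^ V` around the real numbers `β l + ω l * i (μ l) ^ ex l`, where
`i = (i_1, ..., i_dm)` runs through `{1, ..., x} ^ dm`, the exponents `ex l > 1` are not integers, and two coefficients which
depend on the same index have different exponents (for instance `dm = 1`, a one-parameter family with the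
exponents `3/2, 5/2, 7/2, ...`).
For all `i, j` let `X_ij` be the fibration `f_j(t) y ^ 2 = f_i(x)` over the `t`-line: its generic fibre is the quadratic twist of
the curve `C_i : y ^ 2 = f_i(x)` by the polynomial `f_j`. The group of the sections of the Jacobian is `Hom (J(C_j), J(C_i))` up to
finite index, so the rank is one for `i = j` (the section `(x, y) = (t, 1)`) and zero for `i ≠ j`, if the coefficients are generic.
The analytic Nagao conjecture says that `∑ (A_p + rank) log p p ^ (-z)` has no pole at `z = 1`. We show for almost all index
vectors, and ALL systems of polynomials with coefficients in the windows, that the sum of `w_p (A_p(X_ij) + rank) log p p ^ (-z)`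
over the good primes `p` with `y < p ≤ u` is at most `(1 + |z|) y ^ (-δ / 4)`, for all complex `z` with `Re z ≥ 1 / 2 + δ`, all `i`
and `j`, all `w` in an arbitrary family of `y ^ B` weight functions with values in `[-1, 1]` (`w = 1`, real characters, ...) and
all `u` from `y` to `x ^ c`: the pole at `z = 1` has the order and the residue predicted, and up to the line `Re z = 1 / 2` there
is no other singularity, as far as this can be seen from the primes between `y` and `x ^ c`.

The proof uses the moments of sums of functions of the residues of such tuples (`Q56.WL`: products of Fejér kernels, and van der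
Corput's method for the exponential sums over the real points), Weil's bound (library `H341R2`), the averages over the
polynomials modulo `p`, and partial summation (`Q235.FD`).
-/

set_option autoImplicit false

namespace Pool.Agent.Results.MP_3d3918_nt.NearPowers

open Finset Pool.Agent.Q56.WL
open Pool.Agent.Q235.FD (Weights primeSum AllGood twistAverage ntrace twistAverage_eq)


open Classical in
/-- The sum over the primes `p` with `y < p ≤ x`, good for all the curves, of `w_p (A_p(X_ij) + [i = j]) log p p ^ (-z)`; `A_p(X_ij)`
is the average of the traces of Frobenius of the fibres of `f_j(t) y ^ 2 = f_i(x)`. -/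
noncomputable def series {s : ℕ} {g : Fin s → ℕ} (y x : ℕ) (m : (Σ i, Fin (2 * g i + 1)) → ℕ) (i j : Fin s) (w : ℕ → ℝ) (z : ℂ) : ℂ :=
  primeSum y x (fun p => if AllGood p m then
    (w p * (twistAverage p (fun l => m ⟨i, l⟩) (fun l => m ⟨j, l⟩) + if i = j then 1 else 0) * Real.log p : ℝ) * (p : ℂ) ^ (-z) else 0)

/-- For all systems of `s ≥ 1` genera `g_i ≥ 1`, exponents, coefficients and maps as in `Setting`, all `δ > 0`, `A`, `V` and `B`, for
almost all index vectors and ALL systems `m` of coefficient vectors in the windows of length `y ^ V` (`ForAlmostAllFrom`),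
uniformly in the shifts and in the family `θ` of at most `y ^ B` weight functions:
`|series y u m i j w z| ≤ (1 + |z|) y ^ (-δ / 4)` for all `i`, `j` and all `z` with `Re z ≥ 1 / 2 + δ`. -/
theorem result (s : ℕ) (hs : 1 ≤ s) (g : Fin s → ℕ) (hg : ∀ i, 1 ≤ g i) (dm : ℕ)
    (ex ω : (Σ i, Fin (2 * g i + 1)) → ℝ) (μ : (Σ i, Fin (2 * g i + 1)) → Fin dm) (hset : Setting ex ω μ)
    (δ : ℝ) (hδ : 0 < δ) (A V B : ℕ) :
    ForAlmostAllFrom ex ω μ A V (fun (θ : Weights B) y x m => ∀ w ∈ θ.W y, ∀ i j : Fin s, ∀ z : ℂ,
      1 / 2 + δ ≤ z.re → ‖series y x m i j w z‖ ≤ (1 + ‖z‖) * (y : ℝ) ^ (-(δ / 4))) := by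
  classical
  refine (pair_series_near (D := fun i => 2 * g i + 1) hs (fun i => ⟨g i, rfl⟩) (fun i => by have := hg i; omega)
    hset hδ A V B).mono ?_
  intro θ y x m _ hm w hw i j z hz
  have h1 := (hm w hw z hz).2 i j
  have e : series y x m i j w z = -primeSum y x (fun p => ((w p * Real.log p * (if AllGood p m then
          ntrace p (fun l => m ⟨i, l⟩) * ntrace p (fun l => m ⟨j, l⟩) - (if i = j then 1 else 0) else 0) : ℝ) : ℂ) * (p : ℂ) ^ (-z)) := by
    unfold series primeSum
    rw [← sum_neg_distrib]
    refine sum_congr rfl fun p hp => ?_
    beta_reduce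
    by_cases hgood : AllGood p m
    · rw [if_pos hgood, if_pos hgood]
      have : Fact p.Prime := ⟨(mem_filter.1 hp).2⟩
      rw [twistAverage_eq (hgood i).1, ← neg_mul]
      congr 1
      push_cast
      ring
    · rw [if_neg hgood, if_neg hgood]
      simp
  rw [e, norm_neg]
  exact h1

end Pool.Agent.Results.MP_3d3918_nt.NearPowers
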